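import Pool.Agent.Helper45.LS.Defs
import Pool.Agent.Helper70K1.SP.CompPoly
import Pool.Agent.Helper70K1.SP.Raw
import Pool.Agent.NPC.Classes

/-!
# Project LS, part G1: subgroup languages are selective from lists

By helper20.
-/

set_option autoImplicit false

namespace Pool.Agent.Helper20.LS

open Pool.Agent.NPC
open Pool.Agent.Helper45.LS
open Pool.Agent.Helper70K1.SP (poly_bits poly_of_polyTime polyTime_of_typed poly_askT poly_take)

/-! ### Subgroups generated by lists -/

section grp

variable (𝒢 : NamedGroups) (φ : List Bool → List Bool)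

/-- the subgroup of `G l` which is generated by the elements of the strings of length `l` -/
def SS (l : ℕ) (ys : List (List Bool)) : Subgroup (𝒢.G l) :=
  Subgroup.closure {h | ∃ y ∈ ys, y.length = l ∧ 𝒢.el l (φ y) = h}

theorem SS_mono (l : ℕ) (ys : List (List Bool)) (x : List Bool) :
    SS 𝒢 φ l ys ≤ SS 𝒢 φ l (ys ++ [x]) := by
  refine Subgroup.closure_mono ?_
  rintro h ⟨y, hy, h1, h2⟩
  exact ⟨y, by simp [hy], h1, h2⟩

theorem mem_SS (ys : List (List Bool)) (x : List Bool) :
    𝒢.el x.length (φ x) ∈ SS 𝒢 φ x.length (ys ++ [x]) :=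
  Subgroup.subset_closure ⟨x, by simp, rfl, rfl⟩

theorem card_double {G : Type} [Group G] [Finite G] {H K : Subgroup G} (h : H ≤ K) {g : G}
    (h1 : g ∈ K) (h2 : g ∉ H) : 2 * Nat.card H ≤ Nat.card K := by
  obtain ⟨c, hc⟩ := Subgroup.card_dvd_of_le h
  have hK : 0 < Nat.card K := Nat.card_pos
  have hH : 0 < Nat.card H := Nat.card_pos
  have hc0 : c ≠ 0 := by
    rintro rfl
    omega
  have hc1 : c ≠ 1 := by
    rintro rfl
    rw [mul_one] at hc
    have h3 : H = K := Subgroup.eq_of_le_of_card_ge h hc.le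
    rw [h3] at h2
    exact h2 h1
  have : 2 ≤ c := by omega
  rw [hc, mul_comm]
  exact Nat.mul_le_mul_left _ this

theorem prod_double (n : ℕ) (ys : List (List Bool)) (x : List Bool) (hx : x.length ≤ n)
    (h : 𝒢.el x.length (φ x) ∉ SS 𝒢 φ x.length ys) :
    2 * ∏ l ∈ Finset.range (n + 1), Nat.card (SS 𝒢 φ l ys) ≤
      ∏ l ∈ Finset.range (n + 1), Nat.card (SS 𝒢 φ l (ys ++ [x])) := by
  have hm : x.length ∈ Finset.range (n + 1) := Finset.mem_range.2 (by omega)
  rw [← Finset.mul_prod_erase _ _ hm, ← Finset.mul_prod_erase _ (fun l =>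
    Nat.card (SS 𝒢 φ l (ys ++ [x]))) hm, ← mul_assoc]
  refine Nat.mul_le_mul (card_double (SS_mono 𝒢 φ _ ys x) (mem_SS 𝒢 φ ys x) h) ?_
  refine Finset.prod_le_prod' fun l _ => ?_
  exact Nat.le_of_dvd Nat.card_pos (Subgroup.card_dvd_of_le (SS_mono 𝒢 φ l ys x))

theorem pow_le (n : ℕ) (xs : List (List Bool)) (hxs : ∀ x ∈ xs, x.length ≤ n)
    (h : ∀ i (hi : i < xs.length), 𝒢.el (xs[i]).length (φ xs[i]) ∉
      SS 𝒢 φ (xs[i]).length (xs.take i)) (k : ℕ) (hk : k ≤ xs.length) :
    2 ^ k ≤ ∏ l ∈ Finset.range (n + 1), Nat.card (SS 𝒢 φ l (xs.take k)) := by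
  induction k with
  | zero =>
    rw [pow_zero]
    exact Finset.prod_pos fun l _ => Nat.card_pos
  | succ k ih =>
    have hk' : k < xs.length := by omega
    rw [pow_succ, mul_comm, ← List.take_concat_get' xs k hk']
    exact (Nat.mul_le_mul_left 2 (ih (by omega))).trans
      (prod_double 𝒢 φ n (xs.take k) xs[k] (hxs _ (List.getElem_mem hk')) (h k hk'))

theorem length_le (n : ℕ) (xs : List (List Bool)) (hxs : ∀ x ∈ xs, x.length ≤ n)
    (h : ∀ i (hi : i < xs.length), 𝒢.el (xs[i]).length (φ xs[i]) ∉
      SS 𝒢 φ (xs[i]).length (xs.take i)) : xs.length ≤ (n + 1) * 𝒢.p.eval n := by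
  have h1 := pow_le 𝒢 φ n xs hxs h xs.length le_rfl
  have h2 : ∏ l ∈ Finset.range (n + 1), Nat.card (SS 𝒢 φ l (xs.take xs.length)) ≤
      ∏ l ∈ Finset.range (n + 1), 2 ^ 𝒢.p.eval n := by
    refine Finset.prod_le_prod' fun l hl => ?_
    have h3 : Nat.card (SS 𝒢 φ l (xs.take xs.length)) ≤ Nat.card (𝒢.G l) :=
      Nat.card_le_card_of_injective _ Subtype.val_injective
    refine h3.trans ((𝒢.card_le l).trans (Nat.pow_le_pow_right (by norm_num) ?_))
    have h4 : l ≤ n := by
      have := Finset.mem_range.1 hl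
      omega
    exact eval_mono 𝒢.p h4
  rw [Finset.prod_const, Finset.card_range, ← pow_mul] at h2
  have h5 := (Nat.pow_le_pow_iff_right (a := 2) (by norm_num)).1 (h1.trans h2)
  rw [mul_comm]
  exact h5

end grp

/-! ### The algorithm -/

/-- the question for the position `i` -/
def QQ (φ : List Bool → List Bool) (xs : List (List Bool)) (i : ℕ) :
    List Bool × List (List Bool) × List Bool :=
  ((xs.getD i []).map (fun _ => true),
    ((xs.take i).filter (fun y => decide (y.length = (xs.getD i []).length))).map φ,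
    φ (xs.getD i []))

/-- the position -/
def sel (φ mem : List Bool → List Bool) (x : List Bool) : ℕ :=
  ((List.range ((unbits (List (List Bool)) x).getD []).length).filter (fun i =>
    decide (mem (bits (QQ φ ((unbits (List (List Bool)) x).getD []) i)) = [true]))).head?.getD 0

theorem poly_QQ {φ : List Bool → List Bool} (hφ : NPC.Poly φ) {α : Type} [TEnc α]
    {xs : α → List (List Bool)} {i : α → ℕ} (hxs : NPC.Poly xs) (hi : NPC.Poly i) :
    NPC.Poly (fun a => QQ φ (xs a) (i a)) := by
  unfold QQ
  have h1 : NPC.Poly (fun a => (xs a).take (i a)) := poly_take hxs hi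
  have h2 : NPC.Poly (fun a => ((xs a).take (i a)).filter
      (fun y => decide (y.length = ((xs a).getD (i a) []).length))) := by
    fun_prop
  have h3 : NPC.Poly (fun a => (((xs a).take (i a)).filter
      (fun y => decide (y.length = ((xs a).getD (i a) []).length))).map φ) :=
    NPC.Poly.map h2 (hφ.comp (NPC.Poly.snd NPC.Poly.id))
  have h4 : NPC.Poly (fun a => φ ((xs a).getD (i a) [])) := hφ.comp (by fun_prop)
  have h5 : NPC.Poly (fun a => ((xs a).getD (i a) []).map (fun _ => true)) := by fun_prop
  exact NPC.Poly.pair h5 (NPC.Poly.pair h3 h4)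

theorem poly_sel {φ mem : List Bool → List Bool} (hφ : PolyTime φ) (hmem : PolyTime mem) :
    NPC.Poly (sel φ mem) := by
  unfold sel
  have h0 : NPC.Poly (fun x : List Bool => (unbits (List (List Bool)) x).getD []) :=
    NPC.Poly.optGetD poly_unbits (NPC.Poly.const [])
  have h1 : NPC.Poly (fun x : List Bool =>
      List.range ((unbits (List (List Bool)) x).getD []).length) :=
    Poly.range_uPoly (UPoly.length h0)
  have h2 : NPC.Poly (fun p : List Bool × ℕ =>
      mem (bits (QQ φ ((unbits (List (List Bool)) p.1).getD []) p.2))) :=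
    poly_askT hmem (poly_QQ (poly_of_polyTime hφ) (h0.comp (NPC.Poly.fst NPC.Poly.id))
      (NPC.Poly.snd NPC.Poly.id))
  have h3 : NPC.Poly (fun x : List Bool => (List.range ((unbits (List (List Bool)) x).getD
      []).length).filter (fun i => decide (mem (bits (QQ φ ((unbits (List (List Bool)) x).getD [])
        i)) = [true]))) := by
    refine NPC.Poly.filter h1 ?_
    exact Poly.dec_eq h2 (NPC.Poly.const [true])
  fun_prop

theorem sel_spec {𝒢 : NamedGroups} {φ mem : List Bool → List Bool}
    (hmem : ∀ (n : ℕ) (ws : List (List Bool)) (w : List Bool),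
      mem (bits ((List.replicate n true, ws, w) : List Bool × List (List Bool) × List Bool)) =
        [true] ↔ 𝒢.el n w ∈ Subgroup.closure {h | ∃ v ∈ ws, 𝒢.el n v = h})
    (xs : List (List Bool)) (i : ℕ) :
    mem (bits (QQ φ xs i)) = [true] ↔
      𝒢.el (xs.getD i []).length (φ (xs.getD i [])) ∈
        SS 𝒢 φ (xs.getD i []).length (xs.take i) := by
  unfold QQ
  rw [List.map_const', hmem]
  have e : {h | ∃ v ∈ ((xs.take i).filter
      (fun y => decide (y.length = (xs.getD i []).length))).map φ,
      𝒢.el (xs.getD i []).length v = h} =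
      {h | ∃ y ∈ xs.take i, y.length = (xs.getD i []).length ∧
        𝒢.el (xs.getD i []).length (φ y) = h} := by
    ext h
    simp only [List.mem_map, List.mem_filter, decide_eq_true_eq, Set.mem_ofPred_eq]
    constructor
    · rintro ⟨v, ⟨y, ⟨h1, h2⟩, rfl⟩, h3⟩
      exact ⟨y, h1, h2, h3⟩
    · rintro ⟨y, h1, h2, h3⟩
      exact ⟨φ y, ⟨y, ⟨h1, h2⟩, rfl⟩, h3⟩
  rw [e]
  rfl

/-- **G1** -/
theorem t_g1 {𝒢 : NamedGroups} {K : Set (List Bool)} (h1 : GeneratedInP 𝒢)
    (h2 : SubgroupLanguage 𝒢 K) : ListSelective K := by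
  obtain ⟨mem, hm, hmem⟩ := h1
  obtain ⟨φ, hφ, H, hH⟩ := h2
  refine ⟨(Polynomial.X + 1) * 𝒢.p + 1, sel φ mem,
    polyTime_of_typed (poly_bits (poly_sel hφ hm)), fun n xs hxs hP => ?_⟩
  have e0 : (unbits (List (List Bool)) (bits xs)).getD [] = xs := by
    rw [unbits_bits]
    rfl
  have hP' : (n + 1) * 𝒢.p.eval n < xs.length := by
    have : ((Polynomial.X + 1) * 𝒢.p + 1 : Polynomial ℕ).eval n = (n + 1) * 𝒢.p.eval n + 1 := by
      simp
    omega
  obtain ⟨i, hi, hgood⟩ : ∃ i, i < xs.length ∧ mem (bits (QQ φ xs i)) = [true] := by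
    by_contra hcon
    push Not at hcon
    have h3 := length_le 𝒢 φ n xs hxs (fun i hi => by
      have h4 := hcon i hi
      rw [ne_eq, sel_spec hmem, List.getD_eq_getElem _ _ hi] at h4
      exact h4)
    omega
  have hsel : sel φ mem (bits xs) ∈ (List.range xs.length).filter (fun i =>
      decide (mem (bits (QQ φ xs i)) = [true])) := by
    unfold sel
    rw [e0]
    obtain ⟨a, l, hal⟩ : ∃ a l, (List.range xs.length).filter (fun i =>
        decide (mem (bits (QQ φ xs i)) = [true])) = a :: l := by
      rw [← List.ne_nil_iff_exists_cons]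
      intro h5
      have h6 : i ∈ (List.range xs.length).filter (fun i =>
          decide (mem (bits (QQ φ xs i)) = [true])) := by
        rw [List.mem_filter]
        exact ⟨List.mem_range.2 hi, by simpa using hgood⟩
      rw [h5] at h6
      simp at h6
    rw [hal]
    simp
  set j := sel φ mem (bits xs) with hj
  rw [List.mem_filter, List.mem_range, decide_eq_true_eq, sel_spec hmem] at hsel
  refine ⟨hsel.1, fun hL => ?_⟩
  obtain ⟨hL1, hL2⟩ := hL
  apply hL1
  rw [hH]
  refine (Subgroup.closure_le _).2 ?_ hsel.2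
  rintro h ⟨y, hy, hy1, rfl⟩
  obtain ⟨k, hk, rfl⟩ := List.getElem_of_mem hy
  rw [List.length_take] at hk
  have hk1 : k < xs.length := by omega
  have h7 := hL2 k hk1 (by omega)
  rw [List.getD_eq_getElem _ _ hk1, hH] at h7
  rw [List.getElem_take] at hy1 ⊢
  rw [← hy1]
  exact h7

/-! ### Languages in `P` -/

/-- The group of order two; all names but `[true]` are names of the element `≠ 1`. -/
noncomputable def Z2 : NamedGroups where
  G := fun _ => Multiplicative (ZMod 2)
  grp := fun _ => inferInstance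
  fin := fun _ => inferInstanceAs (Finite (ZMod 2))
  p := 1
  card_le := fun n => by
    have h1 : Nat.card (Multiplicative (ZMod 2)) = 2 := by
      rw [Nat.card_eq_fintype_card]
      rfl
    rw [h1]
    simp
  el := fun _ w => if w = [true] then 1 else Multiplicative.ofAdd 1

theorem Z2_ne : (Multiplicative.ofAdd 1 : Multiplicative (ZMod 2)) ≠ 1 := by decide

/-- **G1, part b** -/
theorem t_g1b {K : Set (List Bool)} (hK : InP K) :
    ∃ 𝒢 : NamedGroups, GeneratedInP 𝒢 ∧ SubgroupLanguage 𝒢 K := by
  obtain ⟨V, hV, hVK⟩ := hK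
  refine ⟨Z2, ?_, V, hV, fun _ => ⊥, fun x => ?_⟩
  · refine ⟨fun x => [((unbits (List Bool × List (List Bool) × List Bool) x).getD
      ([], [], [])).2.1.any (fun v => !decide (v = [true])) ||
      decide (((unbits (List Bool × List (List Bool) × List Bool) x).getD
      ([], [], [])).2.2 = [true])], ?_, ?_⟩
    · apply polyTime_of_typed
      have h0 : NPC.Poly (fun x : List Bool =>
          (unbits (List Bool × List (List Bool) × List Bool) x).getD ([], [], [])) :=
        NPC.Poly.optGetD poly_unbits (NPC.Poly.const _)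
      fun_prop
    · intro n ws w
      simp only [unbits_bits, Option.getD_some, List.cons.injEq, and_true, Bool.or_eq_true,
        List.any_eq_true, Bool.not_eq_true', decide_eq_false_iff_not, decide_eq_true_eq]
      change _ ↔ (if w = [true] then 1 else Multiplicative.ofAdd 1 : Multiplicative (ZMod 2)) ∈
        Subgroup.closure {h | ∃ v ∈ ws, (if v = [true] then 1 else
          Multiplicative.ofAdd 1 : Multiplicative (ZMod 2)) = h}
      constructor
      · rintro (⟨v, hv, hv1⟩ | rfl)
        · split_ifs with hw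
          · exact one_mem _
          · refine Subgroup.subset_closure ⟨v, hv, ?_⟩
            rw [if_neg hv1]
        · rw [if_pos rfl]
          exact one_mem _
      · intro h
        by_contra hcon
        push Not at hcon
        obtain ⟨h1, h2⟩ := hcon
        rw [if_neg h2] at h
        have h3 : Subgroup.closure {h | ∃ v ∈ ws, (if v = [true] then 1 else
          Multiplicative.ofAdd 1 : Multiplicative (ZMod 2)) = h} ≤ ⊥ := by
          rw [Subgroup.closure_le]
          rintro g ⟨v, hv, rfl⟩
          rw [if_pos (h1 v hv)]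
          exact one_mem _
        exact Z2_ne (Subgroup.mem_bot.1 (h3 h))
  · rw [hVK, Subgroup.mem_bot]
    change _ ↔ (if V x = [true] then 1 else Multiplicative.ofAdd 1 : Multiplicative (ZMod 2)) = 1
    constructor
    · intro h
      rw [if_pos h]
    · intro h
      by_contra h1
      rw [if_neg h1] at h
      exact Z2_ne h

end Pool.Agent.Helper20.LS
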