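import Pool.Agent.Helper45.LS.Defs2
import Pool.Agent.Helper45.LS.Main
import Pool.Agent.Helper20.LS.G1

/-!
# Project LS, part G3: small bases and selection from lists

By helper20.
-/

set_option autoImplicit false

namespace Pool.Agent.Helper20.LS

open Pool.Agent.NPC
open Pool.Agent.Helper45.LS
open Pool.Agent.Helper70K1.SP (poly_bits poly_of_polyTime polyTime_of_typed poly_askT poly_take
  poly_drop)

/-- typed functions -/
theorem poly_typed {β : Type} [TEnc β] [TDec β] (d : β) {f : List Bool → β}
    (hf : PolyTime (fun x => bits (f x))) : NPC.Poly f := by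
  have h2 : NPC.Poly (fun x => (unbits β (bits (f x))).getD d) :=
    NPC.Poly.optGetD (poly_unbits.comp (poly_of_polyTime hf)) (NPC.Poly.const _)
  refine h2.congr fun x => ?_
  rw [unbits_bits]
  rfl

/-! ### The first number with a property -/

/-- the first number below `N` with the property `p` -/
def fst0 (N : ℕ) (p : ℕ → Bool) : ℕ := ((List.range N).filter p).head?.getD 0

theorem poly_fst0 {α : Type} [TEnc α] {N : α → ℕ} {p : α → ℕ → Bool} (hN : UPoly N)
    (hp : NPC.Poly (fun x : α × ℕ => p x.1 x.2)) : NPC.Poly (fun a => fst0 (N a) (p a)) := by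
  unfold fst0
  have h1 : NPC.Poly (fun a => (List.range (N a)).filter (p a)) :=
    NPC.Poly.filter (p := p) (Poly.range_uPoly hN) hp
  fun_prop

theorem fst0_spec {N : ℕ} {p : ℕ → Bool} {i : ℕ} (hi : i < N) (h : p i = true) :
    fst0 N p < N ∧ p (fst0 N p) = true ∧ fst0 N p ≤ i := by
  unfold fst0
  have h6 : i ∈ (List.range N).filter p := by
    rw [List.mem_filter]
    exact ⟨List.mem_range.2 hi, h⟩
  obtain ⟨a, l, hal⟩ : ∃ a l, (List.range N).filter p = a :: l := by
    rw [← List.ne_nil_iff_exists_cons]
    intro h5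
    rw [h5] at h6
    simp at h6
  have h7 : a ∈ (List.range N).filter p := by
    rw [hal]
    simp
  have h8 : ((List.range N).filter p).Pairwise (· < ·) :=
    List.Pairwise.filter _ List.pairwise_lt_range
  rw [List.mem_filter, List.mem_range] at h7
  rw [hal] at h6 h8 ⊢
  simp only [List.head?_cons, Option.getD_some]
  refine ⟨h7.1, h7.2, ?_⟩
  rcases List.mem_cons.1 h6 with rfl | h9
  · exact le_rfl
  · exact ((List.pairwise_cons.1 h8).1 i h9).le

/-! ### Small bases imply selection, also under conjunctive reductions -/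

section a

variable (f s : List Bool → List (List Bool))

/-- the list -/
def XS (x : List Bool) : List (List Bool) := (unbits (List (List Bool)) x).getD []

/-- the chosen queries -/
def CC (x : List Bool) : List (List Bool) := s (bits ((XS x).flatMap f))

/-- the marked positions -/
def MM (x : List Bool) : List ℕ :=
  (CC f s x).map fun y => fst0 (XS x).length fun a => decide (y ∈ f ((XS x).getD a []))

/-- the selected position -/
def sel3 (x : List Bool) : ℕ := fst0 (XS x).length fun i => !decide (i ∈ MM f s x)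

theorem poly_XS : NPC.Poly XS := NPC.Poly.optGetD poly_unbits (NPC.Poly.const [])

theorem XS_bits (xs : List (List Bool)) : XS (bits xs) = xs := by
  unfold XS
  rw [unbits_bits]
  rfl

variable {f s}

theorem poly_CC (hf : NPC.Poly f) (hs : NPC.Poly s) : NPC.Poly (CC f s) := by
  unfold CC
  have h1 : NPC.Poly (fun x => (XS x).flatMap f) :=
    NPC.Poly.flatMap poly_XS (hf.comp (NPC.Poly.snd NPC.Poly.id))
  exact hs.comp (poly_bits h1)

theorem poly_MM (hf : NPC.Poly f) (hs : NPC.Poly s) : NPC.Poly (MM f s) := by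
  unfold MM
  refine NPC.Poly.map (F := fun x y => fst0 (XS x).length
    fun a => decide (y ∈ f ((XS x).getD a []))) (poly_CC hf hs) ?_
  have h1 : UPoly (fun z : List Bool × List Bool => (XS z.1).length) :=
    UPoly.length (poly_XS.comp (NPC.Poly.fst NPC.Poly.id))
  refine poly_fst0 (p := fun z : List Bool × List Bool => fun a =>
    decide (z.2 ∈ f ((XS z.1).getD a []))) h1 ?_
  have h2 : NPC.Poly (fun z : (List Bool × List Bool) × ℕ => XS z.1.1) :=
    poly_XS.comp (by fun_prop)
  have h3 : NPC.Poly (fun z : (List Bool × List Bool) × ℕ => f ((XS z.1.1).getD z.2 [])) :=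
    hf.comp (by fun_prop)
  fun_prop

theorem poly_sel3 (hf : NPC.Poly f) (hs : NPC.Poly s) : NPC.Poly (sel3 f s) := by
  unfold sel3
  refine poly_fst0 (p := fun x => fun i => !decide (i ∈ MM f s x)) (UPoly.length poly_XS) ?_
  have h2 : NPC.Poly (fun z : List Bool × ℕ => MM f s z.1) :=
    (poly_MM hf hs).comp (NPC.Poly.fst NPC.Poly.id)
  fun_prop

end a

/-- pigeonhole -/
theorem exists_not_mem {N : ℕ} {M : List ℕ} (h : M.length < N) : ∃ i, i < N ∧ i ∉ M := by
  classical
  by_contra hcon
  push Not at hcon
  have h1 : Finset.range N ⊆ M.toFinset := by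
    intro i hi
    rw [List.mem_toFinset]
    exact hcon i (Finset.mem_range.1 hi)
  have h2 := Finset.card_le_card h1
  rw [Finset.card_range] at h2
  have h3 := List.toFinset_card_le M
  omega

/-- **G3, part a** -/
theorem t_g3a {K L : Set (List Bool)} (h : SmallBases K) (hr : ConjReduces L K) :
    ListSelective L := by
  classical
  obtain ⟨P, s, hs, hP⟩ := h
  obtain ⟨f, hf, hfL⟩ := hr
  have hsP : NPC.Poly s := poly_typed [] hs
  have hfP : NPC.Poly f := poly_typed [] hf
  obtain ⟨q, hq⟩ := hfP.sz_le
  have hflen : ∀ x, ∀ y ∈ f x, y.length ≤ q.eval (4 * x.length + 1) := by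
    intro x y hy
    have h1 := length_lt_sz y
    have h2 := sz_le_of_mem hy
    have h3 := hq x
    have h4 := eval_mono q (sz_listBool_le x)
    omega
  refine ⟨P.comp (q.comp (Polynomial.C 4 * Polynomial.X + Polynomial.C 1)) + 1, sel3 f s,
    polyTime_of_typed (poly_bits (poly_sel3 hfP hsP)), fun n xs hxs hlen => ?_⟩
  have h1 : (P.comp (q.comp (Polynomial.C 4 * Polynomial.X + Polynomial.C 1)) + 1).eval n =
      P.eval (q.eval (4 * n + 1)) + 1 := by
    simp [Polynomial.eval_comp]
  rw [h1] at hlen
  obtain ⟨hC1, hC2, hC3⟩ := hP (q.eval (4 * n + 1)) (xs.flatMap f) (by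
    intro y hy
    obtain ⟨x, hx, hy⟩ := List.mem_flatMap.1 hy
    have h5 := hxs x hx
    exact (hflen x y hy).trans (eval_mono q (by omega)))
  have hCC : CC f s (bits xs) = s (bits (xs.flatMap f)) := by
    unfold CC
    rw [XS_bits]
  have hMl : (MM f s (bits xs)).length < xs.length := by
    unfold MM
    rw [List.length_map, hCC]
    omega
  obtain ⟨i0, hi0, hi1⟩ := exists_not_mem hMl
  obtain ⟨g1, g2, -⟩ := fst0_spec (N := xs.length) (p := fun i => !decide (i ∈ MM f s (bits xs)))
    hi0 (by simpa using hi1)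
  have hsel : sel3 f s (bits xs) = fst0 xs.length fun i => !decide (i ∈ MM f s (bits xs)) := by
    unfold sel3
    rw [XS_bits]
  rw [← hsel] at g1 g2
  refine ⟨g1, fun hL => ?_⟩
  obtain ⟨hL1, hL2⟩ := hL
  have g3 : sel3 f s (bits xs) ∉ MM f s (bits xs) := by simpa using g2
  apply hL1
  -- all the queries are in `K`
  have hall : ∀ y ∈ xs.flatMap f, y ∈ K := by
    refine hC3 fun y hy => ?_
    have hy2 := hC2 y hy
    obtain ⟨x, hx, hyx⟩ := List.mem_flatMap.1 hy2
    obtain ⟨a, ha, rfl⟩ := List.getElem_of_mem hx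
    obtain ⟨k1, k2, -⟩ := fst0_spec (N := xs.length) (p := fun a => decide (y ∈ f (xs.getD a [])))
      ha (by
        rw [decide_eq_true_eq, List.getD_eq_getElem _ _ ha]
        exact hyx)
    have k3 : fst0 xs.length (fun a => decide (y ∈ f (xs.getD a []))) ∈ MM f s (bits xs) := by
      unfold MM
      rw [XS_bits, List.mem_map]
      exact ⟨y, by rw [hCC]; exact hy, rfl⟩
    rw [decide_eq_true_eq] at k2
    have k4 := hL2 _ k1 (fun h => g3 (h ▸ k3))
    exact (hfL _).1 k4 y k2
  rw [hfL]
  intro y hy
  refine hall y (List.mem_flatMap.2 ⟨_, ?_, hy⟩)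
  rw [List.getD_eq_getElem _ _ g1]
  exact List.getElem_mem g1

/-! ### Selection implies small bases -/

section b

variable (g : List Bool → ℕ) (P : Polynomial ℕ)

/-- the maximal length -/
def mx (xs : List (List Bool)) : ℕ :=
  fst0 (xs.flatten.length + 1) fun l => xs.all fun y => decide (y.length ≤ l)

theorem mx_spec (xs : List (List Bool)) : (∀ y ∈ xs, y.length ≤ mx xs) ∧
    ∀ n, (∀ y ∈ xs, y.length ≤ n) → mx xs ≤ n := by
  have key : ∀ y ∈ xs, y.length ≤ xs.flatten.length := by
    intro y hy
    exact (List.sublist_flatten_of_mem hy).length_le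
  obtain ⟨h1, h2, h3⟩ := fst0_spec (N := xs.flatten.length + 1)
    (p := fun l => xs.all fun y => decide (y.length ≤ l)) (i := xs.flatten.length) (by omega)
    (by
      rw [List.all_eq_true]
      intro y hy
      rw [decide_eq_true_eq]
      exact key y hy)
  constructor
  · intro y hy
    rw [List.all_eq_true] at h2
    exact of_decide_eq_true (h2 y hy)
  · intro n hn
    by_cases hn' : n < xs.flatten.length + 1
    · exact (fst0_spec (N := xs.flatten.length + 1)
        (p := fun l => xs.all fun y => decide (y.length ≤ l)) (i := n) hn' (by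
          rw [List.all_eq_true]
          intro y hy
          rw [decide_eq_true_eq]
          exact hn y hy)).2.2
    · have h4 : mx xs < xs.flatten.length + 1 := h1
      omega

theorem uPoly_mx {α : Type} [TEnc α] {xs : α → List (List Bool)} (hxs : NPC.Poly xs) :
    UPoly (fun a => mx (xs a)) := by
  have h1 : UPoly (fun a => (xs a).flatten.length + 1) :=
    UPoly.add (UPoly.length (by fun_prop)) (UPoly.const 1)
  refine UPoly.of_le ?_ h1 fun a => ?_
  · refine poly_fst0 (p := fun a => fun l => (xs a).all fun y => decide (y.length ≤ l)) h1 ?_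
    have h2 : NPC.Poly (fun z : α × ℕ => xs z.1) := hxs.comp (NPC.Poly.fst NPC.Poly.id)
    fun_prop
  · exact (mx_spec (xs a)).2 _ fun y hy => ((List.sublist_flatten_of_mem hy).length_le).trans
      (by omega)

/-- one step -/
def st3 (N : ℕ) (A : List (List Bool)) : List (List Bool) :=
  if A.length ≤ N then A else A.take (g (bits A)) ++ A.drop (g (bits A) + 1)

theorem st3_sublist (N : ℕ) (A : List (List Bool)) : (st3 g N A).Sublist A := by
  unfold st3
  split_ifs
  · exact List.Sublist.refl _
  · rw [← List.eraseIdx_eq_take_drop_succ]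
    exact List.eraseIdx_sublist _ _

theorem st3_iter_sublist (N : ℕ) (A : List (List Bool)) (k : ℕ) :
    ((st3 g N)^[k] A).Sublist A := by
  induction k with
  | zero => exact List.Sublist.refl _
  | succ k ih =>
    rw [Function.iterate_succ_apply']
    exact (st3_sublist g N _).trans ih

theorem sz_sublist {l l' : List (List Bool)} (h : l.Sublist l') : sz l ≤ sz l' := by
  induction h with
  | slnil => exact le_rfl
  | cons a _ ih => rw [sz_list_cons]; omega
  | cons_cons a _ ih => rw [sz_list_cons, sz_list_cons]; omega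

/-- the basis -/
noncomputable def bas (x : List Bool) : List (List Bool) :=
  (st3 g (P.eval (mx (XS x))))^[(XS x).length] (XS x)

variable {g}

theorem poly_bas (hg : PolyTime (fun x => bits (g x))) : NPC.Poly (bas g P) := by
  unfold bas
  have hgP : NPC.Poly g := poly_typed 0 hg
  have hN : NPC.Poly (fun x => P.eval (mx (XS x))) := ((uPoly_mx poly_XS).eval P).toPoly
  obtain ⟨q, hq⟩ := poly_XS.sz_le
  refine NPC.Poly.iterLen (F := fun x A => st3 g (P.eval (mx (XS x))) A) poly_XS poly_XS ?_ q ?_
  · unfold st3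
    have h1 : NPC.Poly (fun z : List Bool × List (List Bool) => P.eval (mx (XS z.1))) :=
      hN.comp (NPC.Poly.fst NPC.Poly.id)
    have h2 : NPC.Poly (fun z : List Bool × List (List Bool) => g (bits z.2)) :=
      hgP.comp (poly_bits (NPC.Poly.snd NPC.Poly.id))
    have h3 : NPC.Poly (fun z : List Bool × List (List Bool) => z.2.take (g (bits z.2))) :=
      poly_take (NPC.Poly.snd NPC.Poly.id) h2
    have h4 : NPC.Poly (fun z : List Bool × List (List Bool) => z.2.drop (g (bits z.2) + 1)) :=
      poly_drop (NPC.Poly.snd NPC.Poly.id) (NPC.Poly.add h2 (NPC.Poly.const 1))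
    refine NPC.Poly.ite (by fun_prop) (NPC.Poly.snd NPC.Poly.id) (NPC.Poly.append h3 h4)
  · intro x k _
    exact (sz_sublist (st3_iter_sublist g _ _ k)).trans (hq x)

end b

/-- **G3, part b** -/
theorem t_g3b {K : Set (List Bool)} (h : ListSelective K) : SmallBases K := by
  classical
  obtain ⟨P, g, hg, hP⟩ := h
  refine ⟨P, bas g P, polyTime_of_typed (poly_bits (poly_bas P hg)), fun n xs hxs => ?_⟩
  obtain ⟨hm1, hm2⟩ := mx_spec xs
  have hb : bas g P (bits xs) = (st3 g (P.eval (mx xs)))^[xs.length] xs := by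
    unfold bas
    rw [XS_bits]
  rw [hb]
  set N := P.eval (mx xs) with hN
  have hNn : N ≤ P.eval n := eval_mono P (hm2 n hxs)
  -- one step
  have hstep : ∀ A : List (List Bool), A.Sublist xs →
      (A.length ≤ N → st3 g N A = A) ∧
      (N < A.length → (st3 g N A).length + 1 = A.length ∧
        ((∀ y ∈ st3 g N A, y ∈ K) → ∀ y ∈ A, y ∈ K)) := by
    intro A hA
    refine ⟨fun h => by unfold st3; rw [if_pos h], fun h => ?_⟩
    have h1 : st3 g N A = A.eraseIdx (g (bits A)) := by
      unfold st3
      rw [if_neg (by omega), ← List.eraseIdx_eq_take_drop_succ]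
    obtain ⟨h2, h3⟩ := hP (mx xs) A (fun y hy => hm1 y (hA.subset hy)) (by omega)
    rw [h1]
    refine ⟨?_, fun hK => ?_⟩
    · rw [List.length_eraseIdx_of_lt h2]
      omega
    · have h4 : ∀ j < A.length, j ≠ g (bits A) → A.getD j [] ∈ K := by
        intro j hj hne
        refine hK _ ?_
        rw [List.getD_eq_getElem _ _ hj, List.mem_eraseIdx_iff_getElem]
        exact ⟨j, hj, hne, rfl⟩
      have h5 : A.getD (g (bits A)) [] ∈ K := by
        by_contra h6
        exact h3 ⟨h6, h4⟩
      intro y hy
      obtain ⟨j, hj, rfl⟩ := List.getElem_of_mem hy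
      rw [← List.getD_eq_getElem _ [] hj]
      by_cases hne : j = g (bits A)
      · rw [hne]
        exact h5
      · exact h4 j hj hne
  have hiter : ∀ k, ((st3 g N)^[k] xs).length ≤ max N (xs.length - k) ∧
      ((∀ y ∈ (st3 g N)^[k] xs, y ∈ K) → ∀ y ∈ xs, y ∈ K) := by
    intro k
    induction k with
    | zero => exact ⟨by simp, fun h => h⟩
    | succ k ih =>
      rw [Function.iterate_succ_apply']
      obtain ⟨h1, h2⟩ := hstep _ (st3_iter_sublist g N xs k)
      rcases le_or_gt (((st3 g N)^[k] xs).length) N with h3 | h3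
      · rw [h1 h3]
        exact ⟨h3.trans (le_max_left _ _), ih.2⟩
      · obtain ⟨h4, h5⟩ := h2 h3
        refine ⟨?_, fun h => ih.2 (h5 h)⟩
        have h6 := ih.1
        omega
  obtain ⟨h1, h2⟩ := hiter xs.length
  refine ⟨?_, fun y hy => (st3_iter_sublist g N xs _).subset hy, h2⟩
  rw [Nat.sub_self] at h1
  omega

/-- **G3, part c** -/
theorem t_g3c {K : Set (List Bool)} (h : InP K) : SmallBases K :=
  t_g3b (selective_of_inP h)

/-- Conjunctive reductions preserve selection from lists. -/
theorem t_g3d {K L : Set (List Bool)} (h : ListSelective K) (hr : ConjReduces L K) :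
    ListSelective L := t_g3a (t_g3b h) hr

end Pool.Agent.Helper20.LS
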